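import Mathlib

/-! The majorization `λ(A² + |BA|^p) ≻ λ(A² + |AB|^p)` fails for `3 × 3` matrices, for `p = 3`
and for `p = 4`. -/

open Matrix
open scoped MatrixOrder ComplexOrder

namespace Pool.Agent.Results.MP_26c808_an.NoMajorization

/-- `x ≻ y` for decreasing vectors. -/
def Maj {m : ℕ} (x y : Fin m → ℝ) : Prop :=
  (∀ k : ℕ, 1 ≤ k → k < m → ∑ i with i.val < k, y i ≤ ∑ i with i.val < k, x i) ∧
    ∑ i, x i = ∑ i, y i

/-- Complex `n × n` matrices. -/
abbrev Mat (n : ℕ) := Matrix (Fin n) (Fin n) ℂ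

/-- `|X| ^ p` by the functional calculus, `|X| = (X* X) ^ (1/2)`. -/
noncomputable def absPow {n : ℕ} (X : Mat n) (p : ℝ) : Mat n := CFC.rpow (CFC.abs X) p

/-- `λ(X)` does not majorize `λ(Y)`, for Hermitian `X`, `Y` (eigenvalues in decreasing order). -/
def NotMaj {n : ℕ} (X Y : Mat n) : Prop :=
  ∃ (hX : X.IsHermitian) (hY : Y.IsHermitian), ¬ Maj hX.eigenvalues₀ hY.eigenvalues₀

def Fails {n : ℕ} (A B : Mat n) (p : ℝ) : Prop :=
  A.PosSemidef ∧ B.PosSemidef ∧ NotMaj (A * A + absPow (B * A) p) (A * A + absPow (A * B) p)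

abbrev Q3 := Matrix (Fin 3) (Fin 3) ℚ

noncomputable def c (M : Q3) : Mat 3 := (Rat.castHom ℂ).mapMatrix M

lemma c_mul (M N : Q3) : c (M * N) = c M * c N := map_mul _ _ _

lemma c_add (M N : Q3) : c (M + N) = c M + c N := map_add _ _ _

lemma c_pow (M : Q3) (k : ℕ) : c (M ^ k) = c M ^ k := map_pow _ _ _

lemma c_star (M : Q3) : (c M)ᴴ = c Mᵀ := by
  ext i j; simp [c]

def d1 (M : Q3) : ℚ := M 1 1 - M 0 1 ^ 2 / M 0 0

def u12 (M : Q3) : ℚ := (M 1 2 - M 0 1 * M 0 2 / M 0 0) / d1 M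

def U (M : Q3) : Q3 := !![1, M 0 1 / M 0 0, M 0 2 / M 0 0; 0, 1, u12 M; 0, 0, 1]

def D (M : Q3) : Fin 3 → ℚ := ![M 0 0, d1 M, M 2 2 - M 0 2 ^ 2 / M 0 0 - d1 M * u12 M ^ 2]

def Chk (M : Q3) : Prop := M = (U M)ᵀ * diagonal (D M) * U M ∧ ∀ i, 0 ≤ D M i

instance (M : Q3) : Decidable (Chk M) := by unfold Chk; infer_instance

lemma psd {M : Q3} (h : Chk M) : (c M).PosSemidef := by
  rw [h.1, c_mul, c_mul, ← c_star]
  apply PosSemidef.conjTranspose_mul_mul_same
  have : c (diagonal (D M)) = diagonal fun i => ((D M i : ℝ) : ℂ) := by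
    ext i j; by_cases hij : i = j <;> simp [c, diagonal, hij]
  rw [this]
  exact PosSemidef.diagonal fun i => Complex.zero_le_real.mpr (by exact_mod_cast h.2 i)

lemma shift_psd {X : Mat 3} (hX : X.IsHermitian) (t : ℝ) :
    (X - (t : ℂ) • 1).PosSemidef ↔ ∀ i, t ≤ hX.eigenvalues i := by
  have e : X - (t : ℂ) • 1 = (hX.eigenvectorUnitary : Mat 3) *
      diagonal (fun i => ((hX.eigenvalues i - t : ℝ) : ℂ)) * star (hX.eigenvectorUnitary : Mat 3) := by
    have h1 := hX.spectral_theorem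
    rw [Unitary.conjStarAlgAut_apply] at h1
    have h2 : diagonal (fun i => ((hX.eigenvalues i - t : ℝ) : ℂ)) =
        diagonal (RCLike.ofReal ∘ hX.eigenvalues) - (t : ℂ) • (1 : Mat 3) := by
      ext i j; by_cases hij : i = j <;> simp [diagonal, hij, one_apply]
    rw [h2, mul_sub, sub_mul, ← h1]
    simp
  rw [e, IsUnit.posSemidef_star_right_conjugate_iff (Unitary.isUnit_coe), posSemidef_diagonal_iff]
  simp only [Complex.zero_le_real, sub_nonneg]

lemma notMaj {X Y : Q3} (t : ℚ) (v : Fin 3 → ℚ) (hX : Chk (X - t • 1)) (hX' : Xᵀ = X)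
    (hY : Yᵀ = Y) (hv : v ⬝ᵥ ((Y - t • 1) *ᵥ v) < 0) : NotMaj (c X) (c Y) := by
  have h1 : (c X).IsHermitian := by rw [IsHermitian, c_star, hX']
  have h2 : (c Y).IsHermitian := by rw [IsHermitian, c_star, hY]
  have sh : ∀ M : Q3, c (M - t • 1) = c M - ((t : ℝ) : ℂ) • 1 := fun M => by
    ext i j; by_cases hij : i = j <;> simp [c, hij, one_apply]
  refine ⟨h1, h2, fun ⟨ha, hb⟩ => ?_⟩
  have a1 := (shift_psd h1 t).mp (sh X ▸ psd hX)
  have hc : Fintype.card (Fin 3) = 3 := by simp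
  let l : Fin (Fintype.card (Fin 3)) := ⟨2, by simp⟩
  have key : ∀ x : Fin (Fintype.card (Fin 3)) → ℝ,
      ∑ i, x i = ∑ i with i.val < 2, x i + x l := fun x => by
    rw [← Finset.sum_filter_add_sum_filter_not Finset.univ (fun i => i.val < 2)]
    congr 1
    have : Finset.univ.filter (fun i : Fin (Fintype.card (Fin 3)) => ¬ i.val < 2) = {l} := by
      ext i
      have := i.2
      simp only [Finset.mem_filter, Finset.mem_univ, true_and, Finset.mem_singleton, Fin.ext_iff, l]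
      omega
    rw [this, Finset.sum_singleton]
  have a2 := ha 2 (by norm_num) (by simp)
  rw [key, key] at hb
  have a3 : (t : ℝ) ≤ h1.eigenvalues₀ l := by
    have := a1 (Fintype.equivOfCardEq (Fintype.card_fin _) l)
    simpa [IsHermitian.eigenvalues] using this
  have a4 : ∀ i, (t : ℝ) ≤ h2.eigenvalues i := fun i => by
    have : h2.eigenvalues₀ l ≤ h2.eigenvalues i := h2.eigenvalues₀_antitone (by
      rw [Fin.le_def]
      have := ((Fintype.equivOfCardEq (Fintype.card_fin (Fintype.card (Fin 3)))).symm i).2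
      simp only [l]; omega)
    linarith
  have a5 := ((shift_psd h2 t).mpr a4).dotProduct_mulVec_nonneg (fun i => (v i : ℂ))
  rw [← sh] at a5
  have e : star (fun i => (v i : ℂ)) ⬝ᵥ (c (Y - t • 1) *ᵥ fun i => (v i : ℂ)) =
      (((v ⬝ᵥ ((Y - t • 1) *ᵥ v) : ℚ) : ℝ) : ℂ) := by
    simp [c, dotProduct, mulVec]
  rw [e, Complex.zero_le_real] at a5
  exact absurd (by exact_mod_cast a5) (not_le.mpr hv)

lemma abs_eq {X P : Q3} (hP : Chk P) (h : P * P = Xᵀ * X) : CFC.abs (c X) = c P :=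
  CFC.sqrt_unique (by rw [← c_mul, h, c_mul, ← c_star]; rfl) (psd hP).nonneg

lemma absPow_three {X P : Q3} (hP : Chk P) (h : P * P = Xᵀ * X) :
    absPow (c X) 3 = c (P ^ 3) := by
  rw [absPow, abs_eq hP h, c_pow]
  exact_mod_cast CFC.rpow_natCast (c P) 3 (psd hP).nonneg

lemma absPow_four (X : Q3) : absPow (c X) 4 = c ((Xᵀ * X) ^ 2) := by
  have h1 : absPow (c X) 4 = CFC.abs (c X) ^ 4 := by
    exact_mod_cast CFC.rpow_natCast (CFC.abs (c X)) 4 (CFC.abs_nonneg _)
  rw [h1, show 4 = 2 * 2 from rfl, pow_mul, CFC.abs_sq, c_pow, c_mul, ← c_star]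
  rfl

def A3 : Q3 := !![1/3, 0, 0; 0, 2, 0; 0, 0, 1]
def B3 : Q3 := !![15053/4928, 307/1320, 4/1155; 307/1320, 856/3465, 1037/5544;
  4/1155, 1037/5544, 9575/44352]
def P3 : Q3 := !![11/10, 53/280, 191/2240; 53/280, 2/5, 251/840; 191/2240, 251/840, 3/10]
def R3 : Q3 := !![221489/228690, 4181/13068, -355139/7318080;
  4181/13068, 76336/114345, 104689/457380; -355139/7318080, 104689/457380, 37481/228690]
def A4 : Q3 := !![6, 0, 0; 0, 1, 0; 0, 0, 3]
def B4 : Q3 := !![1/5, 1/5, -1/5; 1/5, 2, 0; -1/5, 0, 2/5]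

theorem result : (∃ A B : Mat 3, Fails A B 3) ∧ (∃ A B : Mat 3, Fails A B 4) ∧
    ∃ (n : ℕ) (A B : Mat n) (p : ℝ), 0 < p ∧ Fails A B p := by
  have h3 : Fails (c A3) (c B3) 3 := by
    refine ⟨psd (by decide +kernel), psd (by decide +kernel), ?_⟩
    rw [← c_mul, ← c_mul, ← c_mul, absPow_three (P := R3) (by decide +kernel) (by decide +kernel),
      absPow_three (P := P3) (by decide +kernel) (by decide +kernel), ← c_add, ← c_add]
    exact notMaj (41 / 40) ![1, 0, -2] (by decide +kernel) (by decide +kernel) (by decide +kernel)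
      (by decide +kernel)
  have h4 : Fails (c A4) (c B4) 4 := by
    refine ⟨psd (by decide +kernel), psd (by decide +kernel), ?_⟩
    rw [← c_mul, ← c_mul, ← c_mul, absPow_four, absPow_four, ← c_add, ← c_add]
    exact notMaj 13 ![1, 10, 16] (by decide +kernel) (by decide +kernel) (by decide +kernel)
      (by decide +kernel)
  exact ⟨⟨_, _, h3⟩, ⟨_, _, h4⟩, 3, _, _, 3, by norm_num, h3⟩

end Pool.Agent.Results.MP_26c808_an.NoMajorization
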